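import Pool.Agent.Helper89.HY.St2
import Pool.Agent.Helper56.SW.M_Sqrt

set_option autoImplicit false

namespace Pool.Agent.Helper96.HY

open Finset Matrix
open Pool.Agent.Helper56.SW (Tm Sm Nq N τ)
open Pool.Agent.Helper89.HY

/-- the box -/
private noncomputable def bx6 (A : Fin 6 → ℕ) : Finset (Fin 6 → ℤ) :=
  Fintype.piFinset fun i => Icc (-(A i : ℤ)) (A i)

open Classical in
private lemma count (p : ℕ) (b : Fin 6 → ZMod p) (A : Fin 6 → ℕ) (V : Finset (Fin 6 → ZMod p)) :
    ((bx6 A).filter fun h => (fun i => b i * (h i : ZMod p)) ∈ V).card =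
      ∑ x ∈ V, ∏ i : Fin 6, nb p (b i) (A i) (x i) := by
  rw [card_eq_sum_card_fiberwise (f := fun (h : Fin 6 → ℤ) (i : Fin 6) => b i * (h i : ZMod p))
    (t := V) (by
      intro h hh
      exact (mem_filter.1 (mem_coe.1 hh)).2)]
  refine sum_congr rfl fun x hx => ?_
  have : (((bx6 A).filter fun h => (fun i => b i * (h i : ZMod p)) ∈ V).filter
      fun h => (fun i => b i * (h i : ZMod p)) = x) =
      Fintype.piFinset fun i => (Icc (-(A i : ℤ)) (A i)).filter
        fun h : ℤ => b i * (h : ZMod p) = x i := by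
    ext h
    simp only [mem_filter, Fintype.mem_piFinset, bx6]
    constructor
    · rintro ⟨⟨h1, -⟩, h3⟩ i
      exact ⟨h1 i, congrFun h3 i⟩
    · intro h1
      have h3 : (fun i => b i * (h i : ZMod p)) = x := funext fun i => (h1 i).2
      exact ⟨⟨fun i => (h1 i).1, by rw [h3]; exact hx⟩, h3⟩
  rw [this, Fintype.card_piFinset]
  rfl

open Classical in
private lemma cardG (n : ℕ) [NeZero n] :
    (((univ : Finset (ZMod n)).filter fun γ => γ ^ 2 = 1).card : ℝ) ≤ 2 * τ n := by
  have hn : 1 ≤ n := Nat.one_le_iff_ne_zero.2 (NeZero.ne n)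
  refine le_trans ?_ (Pool.Agent.Helper56.SW.stSqrt n hn)
  have h : ((univ : Finset (ZMod n)).filter fun γ => γ ^ 2 = 1).card ≤
      (Pool.Agent.Helper56.SW.Γ n).card := by
    refine card_le_card_of_injOn ZMod.val ?_ ?_
    · intro γ hγ
      have hγ2 : γ ^ 2 = 1 := (mem_filter.1 (mem_coe.1 hγ)).2
      refine mem_coe.2 ?_
      unfold Pool.Agent.Helper56.SW.Γ
      refine mem_filter.2 ⟨mem_range.2 (ZMod.val_lt γ), ?_⟩
      rw [← ZMod.intCast_zmod_eq_zero_iff_dvd]
      push_cast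
      rw [ZMod.natCast_zmod_val, hγ2, sub_self]
    · intro x _ y _ hxy
      exact ZMod.val_injective n hxy
  exact_mod_cast h

theorem hCTN : StCTN := by
  classical
  intro n hn0 a₁ a₂ H₁ H₂ X h1 h2 hX
  set b : Fin 6 → ZMod n := fun i => if (i : ℕ) % 2 = 0 then (a₁ : ZMod n) else (a₂ : ZMod n) with hb
  set A : Fin 6 → ℕ := fun i => if (i : ℕ) % 2 = 0 then ⌊H₁⌋₊ else ⌊H₂⌋₊ with hA
  set G : Finset (ZMod n) := (univ : Finset (ZMod n)).filter fun γ => γ ^ 2 = 1 with hG
  have key : Nq 6 n a₁ a₂ H₁ H₂ ≤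
      ∑ γ ∈ G, ((bx6 A).filter fun h => (fun i => b i * (h i : ZMod n)) ∈ Vn n γ).card := by
    refine le_trans ?_ card_biUnion_le
    unfold Nq
    set S := G.biUnion fun γ => (bx6 A).filter fun h => (fun i => b i * (h i : ZMod n)) ∈ Vn n γ
      with hS
    have hmem : ∀ h : Fin 6 → ℤ, ((∀ i : Fin 6, |(h i : ℝ)| ≤ if (i : ℕ) % 2 = 0 then H₁ else H₂) ∧
        ∃ γ : ZMod n, γ ^ 2 = 1 ∧
        (List.ofFn fun i : Fin 6 =>
        Tm ((if (i : ℕ) % 2 = 0 then (a₁ : ZMod n) else (a₂ : ZMod n)) * (h i : ZMod n)) * Sm n).prod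
        = γ • (1 : Matrix (Fin 2) (Fin 2) (ZMod n))) → h ∈ S := by
      rintro h ⟨hh, γ, hγ, hw⟩
      have hbox : h ∈ bx6 A := by
        rw [bx6, Fintype.mem_piFinset]
        intro i
        have := hh i
        have hle : |h i| ≤ (A i : ℤ) := by
          have h3 : (|h i|.toNat : ℕ) ≤ A i := by
            simp only [hA]
            split_ifs with hi
            · rw [if_pos hi] at this
              refine Nat.le_floor ?_
              have h4 : ((|h i|.toNat : ℕ) : ℝ) = |(h i : ℝ)| := by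
                have h5 : ((|h i|.toNat : ℕ) : ℤ) = |h i| := Int.toNat_of_nonneg (abs_nonneg _)
                have h6 : (((|h i|.toNat : ℕ) : ℤ) : ℝ) = ((|h i| : ℤ) : ℝ) := by rw [h5]
                rw [Int.cast_abs] at h6
                exact_mod_cast h6
              rw [h4]
              exact this
            · rw [if_neg hi] at this
              refine Nat.le_floor ?_
              have h4 : ((|h i|.toNat : ℕ) : ℝ) = |(h i : ℝ)| := by
                have h5 : ((|h i|.toNat : ℕ) : ℤ) = |h i| := Int.toNat_of_nonneg (abs_nonneg _)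
                have h6 : (((|h i|.toNat : ℕ) : ℤ) : ℝ) = ((|h i| : ℤ) : ℝ) := by rw [h5]
                rw [Int.cast_abs] at h6
                exact_mod_cast h6
              rw [h4]
              exact this
          omega
        rw [mem_Icc]
        exact abs_le.1 hle
      rw [hS, mem_biUnion]
      refine ⟨γ, mem_filter.2 ⟨mem_univ _, hγ⟩, mem_filter.2 ⟨hbox, ?_⟩⟩
      unfold Vn
      rw [mem_filter]
      exact ⟨mem_univ _, hw⟩
    have h3 := Nat.card_le_card_of_injective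
      (fun h : {h : Fin 6 → ℤ // (∀ i : Fin 6, |(h i : ℝ)| ≤ if (i : ℕ) % 2 = 0 then H₁ else H₂) ∧
        ∃ γ : ZMod n, γ ^ 2 = 1 ∧
        (List.ofFn fun i : Fin 6 =>
        Tm ((if (i : ℕ) % 2 = 0 then (a₁ : ZMod n) else (a₂ : ZMod n)) * (h i : ZMod n)) * Sm n).prod
        = γ • (1 : Matrix (Fin 2) (Fin 2) (ZMod n))} => (⟨h.1, hmem h.1 h.2⟩ : S))
      (by
        intro x y hxy
        apply Subtype.ext
        exact congrArg (fun z : S => z.1) hxy)
    rw [Nat.card_eq_fintype_card (α := S), Fintype.card_coe] at h3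
    exact h3
  have hX0 : 0 ≤ X := by
    refine le_trans ?_ (hX 1 (one_pow 2))
    exact sum_nonneg fun x _ => prod_nonneg fun i _ => Nat.cast_nonneg _
  have key' : ((Nq 6 n a₁ a₂ H₁ H₂ : ℕ) : ℝ) ≤
      ((∑ γ ∈ G, ((bx6 A).filter fun h => (fun i => b i * (h i : ZMod n)) ∈ Vn n γ).card : ℕ) : ℝ) := by
    exact_mod_cast key
  refine le_trans key' ?_
  rw [Nat.cast_sum]
  have h4 : ∀ γ ∈ G,
      ((((bx6 A).filter fun h => (fun i => b i * (h i : ZMod n)) ∈ Vn n γ).card : ℕ) : ℝ) ≤ X := by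
    intro γ hγ
    have hγ2 : γ ^ 2 = 1 := (mem_filter.1 hγ).2
    rw [count]
    refine le_trans (le_of_eq ?_) (hX γ hγ2)
    push_cast
    rfl
  refine le_trans (sum_le_sum h4) ?_
  rw [sum_const, nsmul_eq_mul]
  exact mul_le_mul_of_nonneg_right (cardG n) hX0

end Pool.Agent.Helper96.HY
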