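import Pool.Agent.Helper89.HY.St3

set_option autoImplicit false

namespace Pool.Agent.Helper96.HY

open Finset
open Pool.Agent.Helper89.HY

open Classical in
private lemma cnt2 {α β G : Type} (P : Finset α) (Q : Finset β) (X : α → G) (Y : β → G)
    (T : Finset G) (hT : ∀ p ∈ P, X p ∈ T) :
    ((P ×ˢ Q).filter fun r => X r.1 = Y r.2).card =
      ∑ x ∈ T, (P.filter fun p => X p = x).card * (Q.filter fun q => Y q = x).card := by
  rw [card_eq_sum_card_fiberwise (f := fun r : α × β => X r.1) (t := T) (by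
      intro r hr
      have := (mem_filter.1 (mem_coe.1 hr)).1
      exact mem_coe.2 (hT _ (mem_product.1 this).1))]
  refine sum_congr rfl fun x _ => ?_
  rw [← card_product]
  congr 1
  ext r
  simp only [mem_filter, mem_product]
  constructor
  · rintro ⟨⟨⟨h1, h2⟩, h3⟩, h4⟩
    exact ⟨⟨h1, h4⟩, ⟨h2, by rw [← h3]; exact h4⟩⟩
  · rintro ⟨⟨h1, h2⟩, ⟨h3, h4⟩⟩
    exact ⟨⟨⟨h1, h3⟩, by rw [h2, h4]⟩, h2⟩

open Classical in
private lemma cs {α β G : Type} (P : Finset α) (Q : Finset β) (X : α → G) (Y : β → G) :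
    ((P ×ˢ Q).filter fun r => X r.1 = Y r.2).card ^ 2 ≤
      ((P ×ˢ P).filter fun r => X r.1 = X r.2).card * ((Q ×ˢ Q).filter fun r => Y r.1 = Y r.2).card := by
  have hX : ∀ p ∈ P, X p ∈ P.image X ∪ Q.image Y := fun p hp =>
    mem_union_left _ (mem_image_of_mem X hp)
  have hY : ∀ q ∈ Q, Y q ∈ P.image X ∪ Q.image Y := fun q hq =>
    mem_union_right _ (mem_image_of_mem Y hq)
  rw [cnt2 P Q X Y _ hX, cnt2 P P X X _ hX, cnt2 Q Q Y Y _ hY]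
  refine le_trans (sum_mul_sq_le_sq_mul_sq _ _ _) (le_of_eq ?_)
  congr 1 <;> exact sum_congr rfl fun x _ => by rw [pow_two]

open Classical in
/-- the count as pairs of triples -/
private lemma tri {G ι : Type} [Group G] (s : Finset ι) (z : ι → G) (g : Fin 6 → G) :
    FF s z g = (((s ×ˢ s ×ˢ s) ×ˢ (s ×ˢ s ×ˢ s)).filter fun r : (ι × ι × ι) × (ι × ι × ι) =>
      (z r.1.1)⁻¹ * g 0 * z r.1.2.1 * g 1 * (z r.1.2.2)⁻¹ * g 2 * z r.2.1 * g 3 * (z r.2.2.1)⁻¹ *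
        g 4 * z r.2.2.2 * g 5 = 1).card := by
  unfold FF
  refine card_bij' (fun i _ => ((i 0, i 1, i 2), (i 3, i 4, i 5)))
    (fun r _ => ![r.1.1, r.1.2.1, r.1.2.2, r.2.1, r.2.2.1, r.2.2.2]) ?_ ?_ ?_ ?_
  · intro i hi
    rw [mem_filter, Fintype.mem_piFinset] at hi
    rw [mem_filter]
    refine ⟨?_, hi.2⟩
    simp only [mem_product]
    exact ⟨⟨hi.1 0, hi.1 1, hi.1 2⟩, hi.1 3, hi.1 4, hi.1 5⟩
  · intro r hr
    rw [mem_filter] at hr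
    simp only [mem_product] at hr
    obtain ⟨⟨⟨h0, h1, h2⟩, h3, h4, h5⟩, h6⟩ := hr
    rw [mem_filter, Fintype.mem_piFinset]
    refine ⟨?_, h6⟩
    intro j
    fin_cases j
    exacts [h0, h1, h2, h3, h4, h5]
  · intro i _
    funext j
    fin_cases j <;> rfl
  · intro r _
    rfl

private lemma shift {G ι : Type} [Group G] (s : Finset ι) (z : ι → G) (a b c d e f : G) :
    FF s z ![a, b, c, d, e, f] = FF s z ![c, d, e, f, a, b] := by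
  classical
  rw [tri, tri]
  refine card_bij' (fun r _ => ((r.1.2.2, r.2.1, r.2.2.1), (r.2.2.2, r.1.1, r.1.2.1)))
    (fun r _ => ((r.2.2.1, r.2.2.2, r.1.1), (r.1.2.1, r.1.2.2, r.2.1))) ?_ ?_ ?_ ?_
  · intro r hr
    rw [mem_filter] at hr ⊢
    simp only [mem_product] at hr ⊢
    obtain ⟨⟨⟨h0, h1, h2⟩, h3, h4, h5⟩, h6⟩ := hr
    refine ⟨⟨⟨h2, h3, h4⟩, h5, h0, h1⟩, ?_⟩
    change (z r.1.1)⁻¹ * a * z r.1.2.1 * b * (z r.1.2.2)⁻¹ * c * z r.2.1 * d * (z r.2.2.1)⁻¹ *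
        e * z r.2.2.2 * f = 1 at h6
    change (z r.1.2.2)⁻¹ * c * z r.2.1 * d * (z r.2.2.1)⁻¹ * e * z r.2.2.2 * f * (z r.1.1)⁻¹ *
        a * z r.1.2.1 * b = 1
    have h7 : ((z r.1.1)⁻¹ * a * z r.1.2.1 * b) * ((z r.1.2.2)⁻¹ * c * z r.2.1 * d * (z r.2.2.1)⁻¹ *
        e * z r.2.2.2 * f) = 1 := by
      rw [← h6]; simp only [mul_assoc]
    have h8 := mul_eq_one_iff_eq_inv.1 h7
    have h9 : ((z r.1.2.2)⁻¹ * c * z r.2.1 * d * (z r.2.2.1)⁻¹ *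
        e * z r.2.2.2 * f) * ((z r.1.1)⁻¹ * a * z r.1.2.1 * b) = 1 := by
      rw [h8, mul_inv_cancel]
    rw [← h9]; simp only [mul_assoc]
  · intro r hr
    rw [mem_filter] at hr ⊢
    simp only [mem_product] at hr ⊢
    obtain ⟨⟨⟨h0, h1, h2⟩, h3, h4, h5⟩, h6⟩ := hr
    refine ⟨⟨⟨h4, h5, h0⟩, h1, h2, h3⟩, ?_⟩
    change (z r.1.1)⁻¹ * c * z r.1.2.1 * d * (z r.1.2.2)⁻¹ * e * z r.2.1 * f * (z r.2.2.1)⁻¹ *
        a * z r.2.2.2 * b = 1 at h6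
    change (z r.2.2.1)⁻¹ * a * z r.2.2.2 * b * (z r.1.1)⁻¹ * c * z r.1.2.1 * d * (z r.1.2.2)⁻¹ *
        e * z r.2.1 * f = 1
    have h7 : ((z r.1.1)⁻¹ * c * z r.1.2.1 * d * (z r.1.2.2)⁻¹ * e * z r.2.1 * f) *
        ((z r.2.2.1)⁻¹ * a * z r.2.2.2 * b) = 1 := by
      rw [← h6]; simp only [mul_assoc]
    have h8 := mul_eq_one_iff_eq_inv.1 h7
    have h9 : ((z r.2.2.1)⁻¹ * a * z r.2.2.2 * b) * ((z r.1.1)⁻¹ * c * z r.1.2.1 * d *
        (z r.1.2.2)⁻¹ * e * z r.2.1 * f) = 1 := by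
      rw [h8, mul_inv_cancel]
    rw [← h9]; simp only [mul_assoc]
  · intro r _
    rfl
  · intro r _
    rfl

private lemma cut {G ι : Type} [Group G] (s : Finset ι) (z : ι → G) (a b c d e f : G) :
    FF s z ![a, b, c, d, e, f] ^ 2 ≤
      FF s z ![a, b, 1, b⁻¹, a⁻¹, 1] * FF s z ![e⁻¹, d⁻¹, 1, d, e, 1] := by
  classical
  set X : ι × ι × ι → G := fun p => (z p.1)⁻¹ * a * z p.2.1 * b * (z p.2.2)⁻¹ with hX
  set Y : ι × ι × ι → G := fun q => z q.1 * d * (z q.2.1)⁻¹ * e * z q.2.2 with hY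
  have e1 : FF s z ![a, b, c, d, e, f] = (((s ×ˢ s ×ˢ s) ×ˢ (s ×ˢ s ×ˢ s)).filter
      fun r : (ι × ι × ι) × (ι × ι × ι) => X r.1 = (c * Y r.2 * f)⁻¹).card := by
    rw [tri]
    congr 1
    refine filter_congr fun r _ => ?_
    change (z r.1.1)⁻¹ * a * z r.1.2.1 * b * (z r.1.2.2)⁻¹ * c * z r.2.1 * d * (z r.2.2.1)⁻¹ *
        e * z r.2.2.2 * f = 1 ↔ _
    rw [← mul_eq_one_iff_eq_inv]
    simp only [hX, hY, mul_assoc]
  have e2 : FF s z ![a, b, 1, b⁻¹, a⁻¹, 1] = (((s ×ˢ s ×ˢ s) ×ˢ (s ×ˢ s ×ˢ s)).filter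
      fun r : (ι × ι × ι) × (ι × ι × ι) => X r.1 = X r.2).card := by
    rw [tri]
    refine card_bij' (fun r _ => (r.1, (r.2.2.2, r.2.2.1, r.2.1)))
      (fun r _ => (r.1, (r.2.2.2, r.2.2.1, r.2.1))) ?_ ?_ ?_ ?_
    · intro r hr
      rw [mem_filter] at hr ⊢
      simp only [mem_product] at hr ⊢
      obtain ⟨⟨⟨h0, h1, h2⟩, h3, h4, h5⟩, h6⟩ := hr
      refine ⟨⟨⟨h0, h1, h2⟩, h5, h4, h3⟩, ?_⟩
      change (z r.1.1)⁻¹ * a * z r.1.2.1 * b * (z r.1.2.2)⁻¹ * 1 * z r.2.1 * b⁻¹ * (z r.2.2.1)⁻¹ *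
        a⁻¹ * z r.2.2.2 * 1 = 1 at h6
      rw [← mul_inv_eq_one]
      refine Eq.trans ?_ h6
      simp only [hX, mul_assoc, mul_inv_rev, inv_inv, one_mul, mul_one]
    · intro r hr
      rw [mem_filter] at hr ⊢
      simp only [mem_product] at hr ⊢
      obtain ⟨⟨⟨h0, h1, h2⟩, h3, h4, h5⟩, h6⟩ := hr
      refine ⟨⟨⟨h0, h1, h2⟩, h5, h4, h3⟩, ?_⟩
      rw [← mul_inv_eq_one] at h6
      change (z r.1.1)⁻¹ * a * z r.1.2.1 * b * (z r.1.2.2)⁻¹ * 1 * z r.2.2.2 * b⁻¹ * (z r.2.2.1)⁻¹ *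
        a⁻¹ * z r.2.1 * 1 = 1
      refine Eq.trans ?_ h6
      simp only [hX, mul_assoc, mul_inv_rev, inv_inv, one_mul, mul_one]
    · intro r _
      rfl
    · intro r _
      rfl
  have e3 : FF s z ![e⁻¹, d⁻¹, 1, d, e, 1] = (((s ×ˢ s ×ˢ s) ×ˢ (s ×ˢ s ×ˢ s)).filter
      fun r : (ι × ι × ι) × (ι × ι × ι) => (c * Y r.1 * f)⁻¹ = (c * Y r.2 * f)⁻¹).card := by
    rw [tri]
    refine card_bij' (fun r _ => ((r.1.2.2, r.1.2.1, r.1.1), r.2))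
      (fun r _ => ((r.1.2.2, r.1.2.1, r.1.1), r.2)) ?_ ?_ ?_ ?_
    · intro r hr
      rw [mem_filter] at hr ⊢
      simp only [mem_product] at hr ⊢
      obtain ⟨⟨⟨h0, h1, h2⟩, h3, h4, h5⟩, h6⟩ := hr
      refine ⟨⟨⟨h2, h1, h0⟩, h3, h4, h5⟩, ?_⟩
      change (z r.1.1)⁻¹ * e⁻¹ * z r.1.2.1 * d⁻¹ * (z r.1.2.2)⁻¹ * 1 * z r.2.1 * d * (z r.2.2.1)⁻¹ *
        e * z r.2.2.2 * 1 = 1 at h6
      rw [inv_inj, mul_left_inj, mul_right_inj, ← inv_mul_eq_one]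
      refine Eq.trans ?_ h6
      simp only [hY, mul_assoc, mul_inv_rev, inv_inv, one_mul, mul_one]
    · intro r hr
      rw [mem_filter] at hr ⊢
      simp only [mem_product] at hr ⊢
      obtain ⟨⟨⟨h0, h1, h2⟩, h3, h4, h5⟩, h6⟩ := hr
      refine ⟨⟨⟨h2, h1, h0⟩, h3, h4, h5⟩, ?_⟩
      rw [inv_inj, mul_left_inj, mul_right_inj, ← inv_mul_eq_one] at h6
      change (z r.1.2.2)⁻¹ * e⁻¹ * z r.1.2.1 * d⁻¹ * (z r.1.1)⁻¹ * 1 * z r.2.1 * d * (z r.2.2.1)⁻¹ *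
        e * z r.2.2.2 * 1 = 1
      refine Eq.trans ?_ h6
      simp only [hY, mul_assoc, mul_inv_rev, inv_inv, one_mul, mul_one]
    · intro r _
      rfl
    · intro r _
      rfl
  rw [e1, e2, e3]
  exact cs (s ×ˢ s ×ˢ s) (s ×ˢ s ×ˢ s) X fun q => (c * Y q * f)⁻¹

/-- from `x ^ 2 ≤ E y` and `y ^ 2 ≤ E x` -/
private lemma ar {x y E : ℕ} (h1 : x ^ 2 ≤ E * y) (h2 : y ^ 2 ≤ E * x) : x ≤ E := by
  by_contra h
  push Not at h
  have hx : 0 < x := by omega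
  have h3 : y < x := by
    by_contra h4
    push Not at h4
    have : y ^ 2 ≤ E * y := le_trans h2 (Nat.mul_le_mul_left E h4)
    have hy : 0 < y := by omega
    have h5 : y ≤ E := by
      have : y * y ≤ E * y := by rw [← pow_two]; exact this
      exact Nat.le_of_mul_le_mul_right this hy
    omega
  have h4 : x * x ≤ E * y := by rw [← pow_two]; exact h1
  have h5 : E * y ≤ x * y := Nat.mul_le_mul_right y h.le
  have h6 : x * y < x * x := Nat.mul_lt_mul_of_pos_left h3 hx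
  omega

private lemma ar2 {x a b E : ℕ} (h : x ^ 2 ≤ a * b) (ha : a ≤ E) (hb : b ≤ E) : x ≤ E := by
  have h1 : x ^ 2 ≤ E ^ 2 := by
    rw [pow_two E]
    exact le_trans h (Nat.mul_le_mul ha hb)
  exact (Nat.pow_le_pow_iff_left two_ne_zero).1 h1

theorem hCHB : StCHB := by
  intro G ι _ s z g
  set E := FF s z ![1, 1, 1, 1, 1, 1] with hE
  have hE' : FF s z (fun _ => 1) = E := by
    rw [hE]; rfl
  rw [hE']
  -- step 3
  have s3a : ∀ u : G, FF s z ![u, 1, 1, 1, u⁻¹, 1] ^ 2 ≤ E * FF s z ![u⁻¹, 1, 1, 1, u, 1] := by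
    intro u
    rw [shift]
    have := cut s z 1 1 u⁻¹ 1 u 1
    simp only [inv_one] at this
    exact this
  have s3b : ∀ u : G, FF s z ![1, u, 1, u⁻¹, 1, 1] ^ 2 ≤ E * FF s z ![1, u⁻¹, 1, u, 1, 1] := by
    intro u
    rw [shift, mul_comm]
    have := cut s z 1 u⁻¹ 1 1 1 u
    simp only [inv_one, inv_inv] at this
    exact this
  have t3a : ∀ u : G, FF s z ![u, 1, 1, 1, u⁻¹, 1] ≤ E := by
    intro u
    have h := s3a u⁻¹
    rw [inv_inv] at h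
    exact ar (s3a u) h
  have t3b : ∀ u : G, FF s z ![1, u, 1, u⁻¹, 1, 1] ≤ E := by
    intro u
    have h := s3b u⁻¹
    rw [inv_inv] at h
    exact ar (s3b u) h
  -- step 2
  have t2 : ∀ x y : G, FF s z ![x, y, 1, y⁻¹, x⁻¹, 1] ≤ E := by
    intro x y
    have h := cut s z x⁻¹ 1 x y 1 y⁻¹
    rw [← shift s z x y 1 y⁻¹ x⁻¹ 1 |>.trans (shift s z 1 y⁻¹ x⁻¹ 1 x y)] at h
    have ha := t3a x⁻¹
    have hb := t3b y⁻¹
    simp only [inv_one, inv_inv] at h ha hb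
    exact ar2 h ha hb
  -- step 1
  have hg : FF s z g = FF s z ![g 0, g 1, g 2, g 3, g 4, g 5] := rfl
  rw [hg]
  have h := cut s z (g 0) (g 1) (g 2) (g 3) (g 4) (g 5)
  have hb := t2 (g 4)⁻¹ (g 3)⁻¹
  rw [inv_inv, inv_inv] at hb
  exact ar2 h (t2 (g 0) (g 1)) hb

end Pool.Agent.Helper96.HY
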