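import Pool.Agent.Helper89.HY.St3
import Pool.Agent.Helper28.SP.M_NPW
import Pool.Agent.Helper56.SW.M_Sqrt

set_option autoImplicit false

namespace Pool.Agent.Helper96.HY

open Finset Matrix
open Pool.Agent.Helper56.SW (Tm Sm Nq N τ Γ I bx E Rel mem_bx mem_I)
open Pool.Agent.Helper28.SP (SG SZ Uu Ll zP sP wP W red)
open Pool.Agent.Helper28.SP.NPW (EZ rel_iff Uu_mul Ll_mul Uu_inv Ll_inv)
open Pool.Agent.Helper89.HY

private lemma word {G : Type} [Group G] (U0 V0 U1 V1 U2 V2 U3 V3 U4 V4 U5 V5 T1 T2 T3 P1 Q1 P2 Q2 P3 Q3 γ : G)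
    (h1 : U0⁻¹ * U1 = P1) (h2 : V1 * T1 * V2⁻¹ = Q1) (h3 : U2⁻¹ * U3 = P2)
    (h4 : V3 * T2 * V4⁻¹ = Q2) (h5 : U4⁻¹ * U5 = P3) (h6 : V5 * T3 = Q3 * V0)
    (h7 : P1 * Q1 * P2 * Q2 * P3 * Q3 = γ) (h8 : ∀ x : G, γ * x = x * γ) :
    (U0 * V0)⁻¹ * 1 * (U1 * V1) * T1 * (U2 * V2)⁻¹ * 1 * (U3 * V3) * T2 * (U4 * V4)⁻¹ * 1 *
      (U5 * V5) * (T3 * γ⁻¹) = 1 := by
  have e : (U0 * V0)⁻¹ * 1 * (U1 * V1) * T1 * (U2 * V2)⁻¹ * 1 * (U3 * V3) * T2 * (U4 * V4)⁻¹ * 1 *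
      (U5 * V5) * (T3 * γ⁻¹) = V0⁻¹ * (U0⁻¹ * U1) * (V1 * T1 * V2⁻¹) * (U2⁻¹ * U3) * (V3 * T2 * V4⁻¹) *
        (U4⁻¹ * U5) * (V5 * T3) * γ⁻¹ := by
    simp only [mul_assoc, _root_.mul_inv_rev, one_mul]
  rw [e, h1, h2, h3, h4, h5, h6]
  have e2 : V0⁻¹ * P1 * Q1 * P2 * Q2 * P3 * (Q3 * V0) * γ⁻¹ =
      V0⁻¹ * (P1 * Q1 * P2 * Q2 * P3 * Q3) * V0 * γ⁻¹ := by
    simp only [mul_assoc]
  rw [e2, h7, mul_assoc V0⁻¹, h8 V0]
  simp only [mul_assoc, mul_inv_cancel, mul_one, inv_mul_cancel]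

open Classical in
private lemma le_FF {G ι κ : Type} [Group G] (s : Finset ι) (z : ι → G) (g : Fin 6 → G) (D : Finset κ)
    (f : κ → Fin 6 → ι) (h1 : ∀ d ∈ D, (∀ j, f d j ∈ s) ∧
      (z (f d 0))⁻¹ * g 0 * z (f d 1) * g 1 * (z (f d 2))⁻¹ * g 2 * z (f d 3) * g 3 *
        (z (f d 4))⁻¹ * g 4 * z (f d 5) * g 5 = 1)
    (h2 : ∀ d ∈ D, ∀ d' ∈ D, f d = f d' → d = d') : D.card ≤ FF s z g := by
  unfold FF
  refine card_le_card_of_injOn f ?_ ?_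
  · intro d hd
    exact mem_coe.2 (mem_filter.2 ⟨Fintype.mem_piFinset.2 (h1 d (mem_coe.1 hd)).1,
      (h1 d (mem_coe.1 hd)).2⟩)
  · intro d hd d' hd' h
    exact h2 d (mem_coe.1 hd) d' (mem_coe.1 hd') h

/-- first member of a pair with difference `x` -/
private def f1 (x : ℤ) (α : ℕ) : ℕ := α + (-x).toNat

/-- second member of a pair with difference `x` -/
private def f2 (x : ℤ) (α : ℕ) : ℕ := α + x.toNat

/-- the tuple of a list and offsets -/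
private def ph (t1 t2 t3 : ℤ) (d : List (ℤ × ℤ) × (ℕ × ℕ × ℕ) × (ℕ × ℕ × ℕ)) : Fin 6 → ℕ × ℕ :=
  ![(f1 (d.1.getD 2 (0, 0)).1 d.2.1.1, f1 ((d.1.getD 0 (0, 0)).2 - t3) d.2.2.2.2),
    (f2 (d.1.getD 2 (0, 0)).1 d.2.1.1, f2 ((d.1.getD 2 (0, 0)).2 - t1) d.2.2.1),
    (f1 (d.1.getD 1 (0, 0)).1 d.2.1.2.1, f1 ((d.1.getD 2 (0, 0)).2 - t1) d.2.2.1),
    (f2 (d.1.getD 1 (0, 0)).1 d.2.1.2.1, f2 ((d.1.getD 1 (0, 0)).2 - t2) d.2.2.2.1),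
    (f1 (d.1.getD 0 (0, 0)).1 d.2.1.2.2, f1 ((d.1.getD 1 (0, 0)).2 - t2) d.2.2.2.1),
    (f2 (d.1.getD 0 (0, 0)).1 d.2.1.2.2, f2 ((d.1.getD 0 (0, 0)).2 - t3) d.2.2.2.2)]

private lemma ff_eq {x x' : ℤ} {α α' : ℕ} (h1 : f1 x α = f1 x' α') (h2 : f2 x α = f2 x' α') :
    x = x' ∧ α = α' := by
  unfold f1 at h1
  unfold f2 at h2
  constructor <;> omega

private lemma red_U {c : ℕ} (a : ℤ) (h h' : ℕ) (x : ℤ) (hx : (h' : ℤ) - h = x) :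
    (red c (Uu (a * (h : ℤ))))⁻¹ * red c (Uu (a * (h' : ℤ))) = red c (Uu (a * x)) := by
  rw [← map_inv, ← map_mul, Uu_inv, Uu_mul, ← hx]
  congr 2
  ring

private lemma red_L {c : ℕ} (b : ℤ) (k k' : ℕ) (t y : ℤ) (hy : (k : ℤ) + t - k' = y) :
    red c (Ll (b * (k : ℤ))) * red c (Ll (b * t)) * (red c (Ll (b * (k' : ℤ))))⁻¹ =
      red c (Ll (b * y)) := by
  rw [← map_inv, ← map_mul, ← map_mul, Ll_inv, Ll_mul, Ll_mul, ← hy]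
  congr 2
  ring

private lemma red_L2 {c : ℕ} (b : ℤ) (k k' : ℕ) (t y : ℤ) (hy : (k : ℤ) + t = y + k') :
    red c (Ll (b * (k : ℤ))) * red c (Ll (b * t)) =
      red c (Ll (b * y)) * red c (Ll (b * (k' : ℤ))) := by
  rw [← map_mul, ← map_mul, Ll_mul, Ll_mul, ← mul_add, ← mul_add, hy]

open Classical in
private lemma main (c : ℕ) (a b : ℤ) (A B' : ℕ) (t1 t2 t3 : ℤ) (γ : SG c)
    (hγ : ∀ x : SG c, γ * x = x * γ) (S : Finset (List (ℤ × ℤ)))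
    (hS : ∀ l ∈ S, ∃ p1 p2 p3 : ℤ × ℤ, l = [p3, p2, p1] ∧ |p1.1| ≤ A ∧ |p2.1| ≤ A ∧ |p3.1| ≤ A ∧
      |p1.2 - t1| ≤ B' ∧ |p2.2 - t2| ≤ B' ∧ |p3.2 - t3| ≤ B' ∧ red c (EZ a b l) = γ) :
    S.card * ((A + 1) * (B' + 1)) ^ 3 ≤ FF (range (2 * A + 1) ×ˢ range (2 * B' + 1))
      (fun i : ℕ × ℕ => (red c (zP a b i) : SG c))
      ![1, red c (Ll (b * t1)), 1, red c (Ll (b * t2)), 1, red c (Ll (b * t3)) * γ⁻¹] := by
  set D := S ×ˢ (range (A + 1) ×ˢ range (A + 1) ×ˢ range (A + 1)) ×ˢ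
    (range (B' + 1) ×ˢ range (B' + 1) ×ˢ range (B' + 1)) with hD
  have hc : D.card = S.card * ((A + 1) * (B' + 1)) ^ 3 := by
    rw [hD]
    simp only [card_product, card_range]
    ring
  rw [← hc]
  refine le_FF _ _ _ D (ph t1 t2 t3) ?_ ?_
  · rintro ⟨l, ⟨α1, α2, α3⟩, ⟨β1, β2, β3⟩⟩ hd
    rw [hD] at hd
    simp only [mem_product, mem_range] at hd
    obtain ⟨hl, ⟨ha1, ha2, ha3⟩, ⟨hb1, hb2, hb3⟩⟩ := hd
    obtain ⟨⟨x1, y1⟩, ⟨x2, y2⟩, ⟨x3, y3⟩, rfl, hx1, hx2, hx3, hy1, hy2, hy3, hr⟩ := hS l hl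
    simp only at hx1 hx2 hx3 hy1 hy2 hy3
    rw [abs_le] at hx1 hx2 hx3 hy1 hy2 hy3
    refine ⟨?_, ?_⟩
    · intro j
      rw [mem_product, mem_range, mem_range]
      fin_cases j
      · change f1 x1 α1 < 2 * A + 1 ∧ f1 (y3 - t3) β3 < 2 * B' + 1
        unfold f1; constructor <;> omega
      · change f2 x1 α1 < 2 * A + 1 ∧ f2 (y1 - t1) β1 < 2 * B' + 1
        unfold f2; constructor <;> omega
      · change f1 x2 α2 < 2 * A + 1 ∧ f1 (y1 - t1) β1 < 2 * B' + 1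
        unfold f1; constructor <;> omega
      · change f2 x2 α2 < 2 * A + 1 ∧ f2 (y2 - t2) β2 < 2 * B' + 1
        unfold f2; constructor <;> omega
      · change f1 x3 α3 < 2 * A + 1 ∧ f1 (y2 - t2) β2 < 2 * B' + 1
        unfold f1; constructor <;> omega
      · change f2 x3 α3 < 2 * A + 1 ∧ f2 (y3 - t3) β3 < 2 * B' + 1
        unfold f2; constructor <;> omega
    · change (red c (Uu (a * ((f1 x1 α1 : ℕ) : ℤ)) * Ll (b * ((f1 (y3 - t3) β3 : ℕ) : ℤ))))⁻¹ * 1 *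
        red c (Uu (a * ((f2 x1 α1 : ℕ) : ℤ)) * Ll (b * ((f2 (y1 - t1) β1 : ℕ) : ℤ))) *
        red c (Ll (b * t1)) *
        (red c (Uu (a * ((f1 x2 α2 : ℕ) : ℤ)) * Ll (b * ((f1 (y1 - t1) β1 : ℕ) : ℤ))))⁻¹ * 1 *
        red c (Uu (a * ((f2 x2 α2 : ℕ) : ℤ)) * Ll (b * ((f2 (y2 - t2) β2 : ℕ) : ℤ))) *
        red c (Ll (b * t2)) *
        (red c (Uu (a * ((f1 x3 α3 : ℕ) : ℤ)) * Ll (b * ((f1 (y2 - t2) β2 : ℕ) : ℤ))))⁻¹ * 1 *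
        red c (Uu (a * ((f2 x3 α3 : ℕ) : ℤ)) * Ll (b * ((f2 (y3 - t3) β3 : ℕ) : ℤ))) *
        (red c (Ll (b * t3)) * γ⁻¹) = 1
      simp only [map_mul]
      refine word _ _ _ _ _ _ _ _ _ _ _ _ _ _ _ _ _ _ _ _ _ γ
        (red_U a _ _ x1 ?_) (red_L b _ _ t1 y1 ?_) (red_U a _ _ x2 ?_) (red_L b _ _ t2 y2 ?_)
        (red_U a _ _ x3 ?_) (red_L2 b _ _ t3 y3 ?_) ?_ hγ
      · unfold f1 f2; push_cast; omega
      · unfold f1 f2; push_cast; omega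
      · unfold f1 f2; push_cast; omega
      · unfold f1 f2; push_cast; omega
      · unfold f1 f2; push_cast; omega
      · unfold f1 f2; push_cast; omega
      · rw [← hr]
        simp only [EZ, map_mul, map_one, one_mul, mul_assoc]
  · rintro ⟨l, ⟨α1, α2, α3⟩, ⟨β1, β2, β3⟩⟩ hd ⟨l', ⟨α1', α2', α3'⟩, ⟨β1', β2', β3'⟩⟩ hd' he
    rw [hD] at hd hd'
    simp only [mem_product, mem_range] at hd hd'
    obtain ⟨⟨x1, y1⟩, ⟨x2, y2⟩, ⟨x3, y3⟩, rfl, -⟩ := hS l hd.1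
    obtain ⟨⟨x1', y1'⟩, ⟨x2', y2'⟩, ⟨x3', y3'⟩, rfl, -⟩ := hS l' hd'.1
    have e0 : (f1 x1 α1, f1 (y3 - t3) β3) = (f1 x1' α1', f1 (y3' - t3) β3') := congrFun he 0
    have e1 : (f2 x1 α1, f2 (y1 - t1) β1) = (f2 x1' α1', f2 (y1' - t1) β1') := congrFun he 1
    have e2 : (f1 x2 α2, f1 (y1 - t1) β1) = (f1 x2' α2', f1 (y1' - t1) β1') := congrFun he 2
    have e3 : (f2 x2 α2, f2 (y2 - t2) β2) = (f2 x2' α2', f2 (y2' - t2) β2') := congrFun he 3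
    have e4 : (f1 x3 α3, f1 (y2 - t2) β2) = (f1 x3' α3', f1 (y2' - t2) β2') := congrFun he 4
    have e5 : (f2 x3 α3, f2 (y3 - t3) β3) = (f2 x3' α3', f2 (y3' - t3) β3') := congrFun he 5
    rw [Prod.mk.injEq] at e0 e1 e2 e3 e4 e5
    obtain ⟨r1, r2⟩ := ff_eq e0.1 e1.1
    obtain ⟨r3, r4⟩ := ff_eq e2.1 e3.1
    obtain ⟨r5, r6⟩ := ff_eq e4.1 e5.1
    obtain ⟨r7, r8⟩ := ff_eq e2.2 e1.2
    obtain ⟨r9, r10⟩ := ff_eq e4.2 e3.2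
    obtain ⟨r11, r12⟩ := ff_eq e0.2 e5.2
    have s1 : y1 = y1' := by omega
    have s2 : y2 = y2' := by omega
    have s3 : y3 = y3' := by omega
    subst r1 r2 r3 r4 r5 r6 r8 r10 r12 s1 s2 s3
    rfl

/-- the translates -/
private def tt (B B' q : ℕ) : ℤ := -(B : ℤ) + B' + 2 * B' * q

private lemma cover (B B' : ℕ) (h1 : 1 ≤ B') (y : ℤ) (hy : |y| ≤ B) :
    ∃ q ∈ range (B / B' + 1), |y - tt B B' q| ≤ B' := by
  rw [abs_le] at hy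
  obtain ⟨m, hm⟩ : ∃ m : ℕ, y + B = m := ⟨(y + B).toNat, by omega⟩
  refine ⟨m / (2 * B'), ?_, ?_⟩
  · rw [mem_range]
    have h2 : m ≤ 2 * B := by omega
    have h3 : m / (2 * B') ≤ (2 * B) / (2 * B') := Nat.div_le_div_right h2
    rw [Nat.mul_div_mul_left B B' (by norm_num : 0 < 2)] at h3
    omega
  · have h2 : 2 * B' * (m / (2 * B')) + m % (2 * B') = m := Nat.div_add_mod m (2 * B')
    have h3 : m % (2 * B') < 2 * B' := Nat.mod_lt m (by omega)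
    have h4 : y - tt B B' (m / (2 * B')) = (m % (2 * B') : ℕ) - (B' : ℤ) := by
      unfold tt
      have h5 : (2 * (B' : ℤ) * ((m / (2 * B') : ℕ) : ℤ)) + ((m % (2 * B') : ℕ) : ℤ) = m := by
        exact_mod_cast h2
      linear_combination hm - h5
    rw [h4, abs_le]
    constructor <;> omega

theorem hTRN : StTRN := by
  classical
  intro c a b A B B' X hc hA hB' hBB hX0 hX
  set L : ℕ × ℕ × ℕ × ℕ → Finset (List (ℤ × ℤ)) := fun v =>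
    (bx (I A) (I B) 3).filter fun l => Rel c a b (v.1 : ℤ) l ∧
      ∃ p1 p2 p3 : ℤ × ℤ, l = [p3, p2, p1] ∧ |p1.2 - tt B B' v.2.1| ≤ B' ∧
        |p2.2 - tt B B' v.2.2.1| ≤ B' ∧ |p3.2 - tt B B' v.2.2.2| ≤ B' with hL
  set T := range (B / B' + 1) with hT
  have h1 : ∀ v : ℕ × ℕ × ℕ × ℕ, ((L v).card : ℝ) * (((A : ℝ) + 1) * ((B' : ℝ) + 1)) ^ 3 ≤ X := by
    intro v
    rcases (L v).eq_empty_or_nonempty with h0 | ⟨l0, hl0⟩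
    · rw [h0]; simpa using hX0
    · have hl0' := hl0
      rw [hL, mem_filter] at hl0'
      have hm0 := (rel_iff c a b _ l0).1 hl0'.2.1
      have hcen := Pool.Agent.Helper28.SP.NPW.central c (red c (EZ a b l0)) _ hm0
      have h2 := main c a b A B' (tt B B' v.2.1) (tt B B' v.2.2.1) (tt B B' v.2.2.2)
        (red c (EZ a b l0)) hcen (L v) (by
          intro l hl
          rw [hL, mem_filter, mem_bx] at hl
          obtain ⟨⟨hlen, hin⟩, hrel, p1, p2, p3, rfl, g1, g2, g3⟩ := hl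
          refine ⟨p1, p2, p3, rfl, mem_I.1 (hin p1 (by simp)).1, mem_I.1 (hin p2 (by simp)).1,
            mem_I.1 (hin p3 (by simp)).1, g1, g2, g3, ?_⟩
          apply Subtype.ext
          rw [(rel_iff c a b _ _).1 hrel, hm0])
      refine le_trans ?_ (hX ![1, red c (Ll (b * tt B B' v.2.1)), 1,
        red c (Ll (b * tt B B' v.2.2.1)), 1,
        red c (Ll (b * tt B B' v.2.2.2)) * (red c (EZ a b l0))⁻¹])
      exact_mod_cast h2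
  have h2 : N c a b 3 A B ≤ ∑ v ∈ (Γ c) ×ˢ T ×ˢ T ×ˢ T, (L v).card := by
    refine le_trans ?_ card_biUnion_le
    unfold N
    refine card_le_card ?_
    intro l hl
    rw [mem_filter] at hl
    obtain ⟨hl, γ, hγ, hr⟩ := hl
    have hl' := hl
    rw [mem_bx] at hl'
    obtain ⟨hlen, hin⟩ := hl'
    obtain ⟨p3, p2, p1, rfl⟩ : ∃ p3 p2 p1 : ℤ × ℤ, l = [p3, p2, p1] := by
      match l, hlen with
      | [p3, p2, p1], _ => exact ⟨p3, p2, p1, rfl⟩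
    obtain ⟨q1, hq1, g1⟩ := cover B B' hB' p1.2 (mem_I.1 (hin p1 (by simp)).2)
    obtain ⟨q2, hq2, g2⟩ := cover B B' hB' p2.2 (mem_I.1 (hin p2 (by simp)).2)
    obtain ⟨q3, hq3, g3⟩ := cover B B' hB' p3.2 (mem_I.1 (hin p3 (by simp)).2)
    refine mem_biUnion.2 ⟨(γ, q1, q2, q3), ?_, ?_⟩
    · simp only [mem_product]
      exact ⟨hγ, hq1, hq2, hq3⟩
    · rw [hL, mem_filter]
      exact ⟨hl, hr, p1, p2, p3, rfl, g1, g2, g3⟩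
  have hT' : (T.card : ℝ) ≤ 2 * (B : ℝ) / B' := by
    rw [hT, card_range]
    have hB0 : (0 : ℝ) < B' := by exact_mod_cast hB'
    have h3 : ((B / B' : ℕ) : ℝ) ≤ (B : ℝ) / B' := Nat.cast_div_le
    have h4 : (1 : ℝ) ≤ (B : ℝ) / B' := by
      rw [le_div_iff₀ hB0, one_mul]
      exact_mod_cast hBB
    push_cast
    calc ((B / B' : ℕ) : ℝ) + 1 ≤ (B : ℝ) / B' + (B : ℝ) / B' := add_le_add h3 h4
      _ = 2 * (B : ℝ) / B' := by ring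
  have hG : ((Γ c).card : ℝ) ≤ 2 * τ c := Pool.Agent.Helper56.SW.stSqrt c hc
  have h2' : (N c a b 3 A B : ℝ) ≤ ∑ v ∈ (Γ c) ×ˢ T ×ˢ T ×ˢ T, ((L v).card : ℝ) := by
    exact_mod_cast h2
  calc (N c a b 3 A B : ℝ) * (((A : ℝ) + 1) * ((B' : ℝ) + 1)) ^ 3
      ≤ (∑ v ∈ (Γ c) ×ˢ T ×ˢ T ×ˢ T, ((L v).card : ℝ)) * (((A : ℝ) + 1) * ((B' : ℝ) + 1)) ^ 3 :=
        mul_le_mul_of_nonneg_right h2' (by positivity)
    _ = ∑ v ∈ (Γ c) ×ˢ T ×ˢ T ×ˢ T, ((L v).card : ℝ) * (((A : ℝ) + 1) * ((B' : ℝ) + 1)) ^ 3 :=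
        sum_mul _ _ _
    _ ≤ ∑ _v ∈ (Γ c) ×ˢ T ×ˢ T ×ˢ T, X := sum_le_sum fun v _ => h1 v
    _ = ((Γ c).card : ℝ) * (T.card : ℝ) ^ 3 * X := by
        rw [sum_const, nsmul_eq_mul]
        simp only [card_product]
        push_cast
        ring
    _ ≤ (2 * τ c) * (2 * (B : ℝ) / B') ^ 3 * X := by
        refine mul_le_mul_of_nonneg_right ?_ hX0
        exact mul_le_mul hG (pow_le_pow_left₀ (Nat.cast_nonneg _) hT' 3) (by positivity)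
          (le_trans (Nat.cast_nonneg _) hG)
    _ = (2 * (B : ℝ) / B') ^ 3 * (2 * τ c) * X := by ring

end Pool.Agent.Helper96.HY
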